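import Pool.Agent.PFC.StmtsB5b

/-!
# Squad PFC, row LSF: the number of simple modules of a full corner
-/

set_option autoImplicit false

open scoped BigOperators

noncomputable section

namespace Pool.Agent.PFC.H91

section mat

variable {F : Type} [Field F]

theorem mat_prime {n : ℕ} {M N : Matrix (Fin n) (Fin n) F} (hM : M ≠ 0) (hN : N ≠ 0) :
    ∃ C : Matrix (Fin n) (Fin n) F, M * C * N ≠ 0 := by
  obtain ⟨p, q, hp⟩ : ∃ p q, M p q ≠ 0 := by
    by_contra h
    push Not at h
    exact hM (by ext i j; exact h i j)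
  obtain ⟨r, s, hr⟩ : ∃ r s, N r s ≠ 0 := by
    by_contra h
    push Not at h
    exact hN (by ext i j; exact h i j)
  refine ⟨Matrix.single q r 1, fun h => ?_⟩
  have h1 : Matrix.single p p (1 : F) * (M * Matrix.single q r 1 * N) * Matrix.single s s 1 =
      Matrix.single p s (M p q * N r s) := by
    have e1 : Matrix.single p p (1 : F) * (M * Matrix.single q r 1 * N) * Matrix.single s s 1 =
        (Matrix.single p p (1 : F) * M * Matrix.single q q 1) *
          (Matrix.single q r 1 * N * Matrix.single s s 1) := by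
      have e2 : Matrix.single q r (1 : F) = Matrix.single q q 1 * Matrix.single q r 1 := by
        rw [Matrix.single_mul_single_same, one_mul]
      conv_lhs => rw [e2]
      simp only [Matrix.mul_assoc]
    rw [e1, Matrix.single_mul_mul_single, Matrix.single_mul_mul_single,
      Matrix.single_mul_single_same]
    simp
  rw [h, Matrix.mul_zero, Matrix.zero_mul] at h1
  have h2 := congrFun (congrFun h1 p) s
  rw [Matrix.zero_apply, Matrix.single_apply_same] at h2
  exact mul_ne_zero hp hr h2.symm

/-- an idempotent matrix factors through its rank -/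
theorem idem_factor {n : ℕ} (P : Matrix (Fin n) (Fin n) F) (hP : P * P = P) (h0 : P ≠ 0) :
    ∃ (r : ℕ) (U : Matrix (Fin r) (Fin n) F) (V : Matrix (Fin n) (Fin r) F), 0 < r ∧
      V * U = P ∧ U * V = 1 := by
  let f : (Fin n → F) →ₗ[F] (Fin n → F) := Matrix.toLin' P
  have hf : ∀ x, f (f x) = f x := by
    intro x
    have h1 : Matrix.toLin' (P * P) x = f (f x) := by
      rw [Matrix.toLin'_mul]
      rfl
    rw [← h1, hP]
  let W := LinearMap.range f
  let b := Module.finBasis F W
  let u : (Fin n → F) →ₗ[F] (Fin (Module.finrank F W) → F) :=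
    b.equivFun.toLinearMap ∘ₗ f.rangeRestrict
  let v : (Fin (Module.finrank F W) → F) →ₗ[F] (Fin n → F) :=
    W.subtype ∘ₗ b.equivFun.symm.toLinearMap
  have hvu : v ∘ₗ u = f := by
    ext1 i
    refine LinearMap.ext fun x => ?_
    simp only [u, v, LinearMap.comp_apply, LinearEquiv.coe_coe, LinearEquiv.symm_apply_apply]
    rfl
  have huv : u ∘ₗ v = LinearMap.id := by
    refine LinearMap.ext fun x => ?_
    have h1 : f.rangeRestrict (v x) = b.equivFun.symm x := by
      apply Subtype.ext
      obtain ⟨y, hy⟩ := (b.equivFun.symm x).2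
      change f (v x) = _
      have h2 : v x = f y := hy.symm
      rw [h2, hf]
      exact hy
    simp only [u, LinearMap.comp_apply, LinearEquiv.coe_coe, h1, LinearEquiv.apply_symm_apply,
      LinearMap.id_apply]
  refine ⟨Module.finrank F W, LinearMap.toMatrix' u, LinearMap.toMatrix' v, ?_, ?_, ?_⟩
  · rw [Nat.pos_iff_ne_zero]
    intro h
    have h1 : W = ⊥ := Submodule.finrank_eq_zero.1 h
    have h2 : f = 0 := LinearMap.range_eq_bot.1 h1
    apply h0
    have h3 := congrArg LinearMap.toMatrix' h2
    rw [LinearMap.toMatrix'_toLin', map_zero] at h3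
    exact h3
  · rw [← LinearMap.toMatrix'_comp, hvu, LinearMap.toMatrix'_toLin']
  · rw [← LinearMap.toMatrix'_comp, huv, LinearMap.toMatrix'_id]

end mat

section fin

variable {F Y : Type} [Field F] [Ring Y] [Algebra F Y]

/-- containment of kernels is equality -/
theorem ker_max {n k : ℕ} (ρ : Y →ₐ[F] Matrix (Fin n) (Fin n) F)
    (hρ : Function.Surjective ρ) (σ : Y →ₐ[F] Matrix (Fin k) (Fin k) F) (hk : 0 < k)
    (h : ∀ a, ρ a = 0 → σ a = 0) : ∀ a, σ a = 0 → ρ a = 0 := by
  intro a ha
  by_contra hna
  obtain ⟨p, q, hp⟩ : ∃ p q, (ρ a) p q ≠ 0 := by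
    by_contra h
    push Not at h
    exact hna (by ext i j; exact h i j)
  choose u hu using fun i : Fin n => hρ (Matrix.single i p 1)
  choose v hv using fun i : Fin n => hρ (Matrix.single q i 1)
  have h1 : ρ (∑ i, u i * a * v i - (ρ a p q) • 1) = 0 := by
    rw [map_sub, map_sum, map_smul, map_one, sub_eq_zero]
    have h2 : ∀ i, ρ (u i * a * v i) = Matrix.single i i (ρ a p q) := by
      intro i
      rw [map_mul, map_mul, hu, hv, Matrix.single_mul_mul_single, one_mul, mul_one]
    rw [Finset.sum_congr rfl fun i _ => h2 i]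
    ext i j
    rw [Matrix.sum_apply, Matrix.smul_apply, Matrix.one_apply]
    by_cases hij : i = j
    · subst hij
      rw [Finset.sum_eq_single i]
      · rw [Matrix.single_apply_same, if_pos rfl, smul_eq_mul, mul_one]
      · intro l _ hl
        rw [Matrix.single_apply_of_ne]
        exact fun h => hl h.1
      · intro hi
        exact absurd (Finset.mem_univ i) hi
    · rw [if_neg hij, smul_zero]
      refine Finset.sum_eq_zero fun l _ => ?_
      rw [Matrix.single_apply_of_ne]
      rintro ⟨h1, h2⟩
      exact hij (h1.symm.trans h2)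
  have h3 := h _ h1
  rw [map_sub, map_sum, map_smul, map_one] at h3
  have h4 : ∀ i, σ (u i * a * v i) = 0 := by
    intro i
    rw [map_mul, map_mul, ha, mul_zero, zero_mul]
  rw [Finset.sum_eq_zero fun i _ => h4 i, zero_sub, neg_eq_zero] at h3
  haveI : Nonempty (Fin k) := ⟨⟨0, hk⟩⟩
  rcases smul_eq_zero.1 h3 with h5 | h5
  · exact hp h5
  · exact one_ne_zero h5

/-- the number of kernels is finite -/
theorem kers_finite (F Y : Type) [Field F] [Ring Y] [Algebra F Y] [FiniteDimensional F Y] :
    (kers F Y).Finite := by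
  by_contra hinf
  let e := Set.Infinite.natEmbedding _ hinf
  choose n ρ hn hρ hK using fun i => (e i).2
  let Q : ℕ → Submodule F Y := fun i => LinearMap.ker (ρ i).toLinearMap
  let P : ℕ → Submodule F Y := fun N => ⨅ i ∈ Finset.range N, Q i
  have hP : Antitone P := by
    intro a b hab
    refine le_iInf₂ fun i hi => iInf₂_le i ?_
    exact Finset.mem_range.2 ((Finset.mem_range.1 hi).trans_le hab)
  obtain ⟨N, hN⟩ := IsArtinian.monotone_stabilizes (R := F) (M := Y)
    ⟨fun N => OrderDual.toDual (P N), fun a b hab => hP hab⟩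
  have h1 : P N = P (N + 1) := hN (N + 1) (Nat.le_succ N)
  have h2 : P N ≤ Q N := by
    rw [h1]
    exact iInf₂_le N (Finset.mem_range.2 (Nat.lt_succ_self N))
  -- prime avoidance
  have h3 : ∃ i, i < N ∧ ∀ a, ρ i a = 0 → ρ N a = 0 := by
    by_contra hcon
    push Not at hcon
    have h4 : ∀ s : Finset ℕ, (∀ i ∈ s, i < N) → ∃ x, ρ N x ≠ 0 ∧ ∀ i ∈ s, ρ i x = 0 := by
      intro s
      induction s using Finset.induction_on with
      | empty =>
        intro _
        refine ⟨1, ?_, fun i hi => absurd hi (Finset.notMem_empty i)⟩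
        haveI : Nonempty (Fin (n N)) := ⟨⟨0, hn N⟩⟩
        rw [map_one]
        exact one_ne_zero
      | insert j s hj ih =>
        intro hs
        obtain ⟨x, hx, hx2⟩ := ih fun i hi => hs i (Finset.mem_insert_of_mem hi)
        obtain ⟨a, ha, ha2⟩ := hcon j (hs j (Finset.mem_insert_self j s))
        obtain ⟨C, hC⟩ := mat_prime hx ha2
        obtain ⟨c, hc⟩ := hρ N C
        refine ⟨x * c * a, ?_, fun i hi => ?_⟩
        · rw [map_mul, map_mul, hc]
          exact hC
        · rcases Finset.mem_insert.1 hi with h | h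
          · rw [h, map_mul, ha, mul_zero]
          · rw [map_mul, map_mul, hx2 i h, zero_mul, zero_mul]
    obtain ⟨x, hx, hx2⟩ := h4 (Finset.range N) fun i hi => Finset.mem_range.1 hi
    apply hx
    have h5 : x ∈ P N := by
      refine (Submodule.mem_iInf _).2 fun i => (Submodule.mem_iInf _).2 fun hi => ?_
      exact hx2 i hi
    exact h2 h5
  obtain ⟨i, hi, h4⟩ := h3
  have h5 := ker_max (ρ i) (hρ i) (ρ N) (hn N) h4
  have h6 : e i = e N := by
    apply Subtype.ext
    rw [hK i, hK N]
    ext a
    exact ⟨h4 a, h5 a⟩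
  exact hi.ne (e.injective h6)

end fin

/-- row LSF -/
theorem lsf : LsfStmt := by
  intro F X Y _ _ _ _ _ _ _ j κ hc h1
  haveI : FiniteDimensional F Y := Module.Finite.of_injective κ hc.inj
  have hjj : j * j = j := by
    rw [← hc.one, ← hc.mul, mul_one]
  have hjl : ∀ y, j * κ y = κ y := by
    intro y
    rw [← hc.one, ← hc.mul, one_mul]
  have hjr : ∀ y, κ y * j = κ y := by
    intro y
    rw [← hc.one, ← hc.mul, mul_one]
  have hran : ∀ a b x : X, ∃ y, κ y = j * a * x * b * j := by
    intro a b x
    refine hc.ran _ ?_ ?_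
    · simp only [← mul_assoc, hjj]
    · simp only [mul_assoc, hjj]
  -- elements of the kernel
  have hker : ∀ {n : ℕ} (ρ : X →ₐ[F] Matrix (Fin n) (Fin n) F) (x : X),
      (∀ a b y, κ y = j * a * x * b * j → ρ (κ y) = 0) → ρ x = 0 := by
    intro n ρ x hx
    have h0 : ∀ a b, ρ (j * a * x * b * j) = 0 := by
      intro a b
      obtain ⟨y, hy⟩ := hran a b x
      rw [← hy]
      exact hx a b y hy
    have h2 : ∀ z ∈ Submodule.span F {x | ∃ a b : X, x = a * j * b}, ∀ b, ρ (z * x * b * j) = 0 := by
      intro z hz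
      induction hz using Submodule.span_induction with
      | mem z hz =>
        obtain ⟨a, b', rfl⟩ := hz
        intro b
        have e : a * j * b' * x * b * j = a * (j * b' * x * b * j) := by
          simp only [mul_assoc]
        rw [e, map_mul, h0, mul_zero]
      | zero =>
        intro b
        simp
      | add z w _ _ hz hw =>
        intro b
        rw [add_mul, add_mul, add_mul, map_add, hz, hw, add_zero]
      | smul c z _ hz =>
        intro b
        rw [smul_mul_assoc, smul_mul_assoc, smul_mul_assoc, map_smul, hz, smul_zero]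
    have h3 : ∀ b, ρ (x * b * j) = 0 := by
      intro b
      have := h2 1 h1 b
      rwa [one_mul] at this
    have h4 : ∀ z ∈ Submodule.span F {x | ∃ a b : X, x = a * j * b}, ρ (x * z) = 0 := by
      intro z hz
      induction hz using Submodule.span_induction with
      | mem z hz =>
        obtain ⟨a, b', rfl⟩ := hz
        have e : x * (a * j * b') = (x * a * j) * b' := by
          simp only [mul_assoc]
        rw [e, map_mul, h3, zero_mul]
      | zero => simp
      | add z w _ _ hz hw => rw [mul_add, map_add, hz, hw, add_zero]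
      | smul c z _ hz => rw [mul_smul_comm, map_smul, hz, smul_zero]
    have := h4 1 h1
    rwa [mul_one] at this
  refine Set.ncard_le_ncard_of_injOn (fun K => κ ⁻¹' K) ?_ ?_ (kers_finite F Y)
  · rintro K ⟨n, ρ, hn, hρ, rfl⟩
    haveI : Nonempty (Fin n) := ⟨⟨0, hn⟩⟩
    have hP0 : ρ j ≠ 0 := by
      intro h
      have h2 : ρ 1 = 0 := by
        refine hker ρ 1 fun a b y hy => ?_
        rw [hy, map_mul, h, mul_zero]
      rw [map_one] at h2
      exact one_ne_zero h2
    obtain ⟨r, U, V, hr, hVU, hUV⟩ := idem_factor (ρ j) (by rw [← map_mul, hjj]) hP0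
    have hsurj := hρ
    let g : Y →ₗ[F] Matrix (Fin r) (Fin r) F :=
      { toFun := fun y => U * ρ (κ y) * V
        map_add' := fun y y' => by
          rw [map_add, map_add, Matrix.mul_add, Matrix.add_mul]
        map_smul' := fun c y => by
          rw [map_smul, map_smul, Matrix.mul_smul, Matrix.smul_mul, RingHom.id_apply] }
    have hg : ∀ y, g y = U * ρ (κ y) * V := fun _ => rfl
    have hg1 : g 1 = 1 := by
      rw [hg, hc.one, ← hVU, ← Matrix.mul_assoc, hUV, Matrix.one_mul, hUV]
    have hgm : ∀ y y', g (y * y') = g y * g y' := by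
      intro y y'
      have e1 : ρ (κ (y * y')) = ρ (κ y) * (V * U) * ρ (κ y') := by
        rw [hVU, ← map_mul, ← map_mul, hc.mul, hjr]
      rw [hg, hg, hg, e1]
      simp only [Matrix.mul_assoc]
    refine ⟨r, AlgHom.ofLinearMap g hg1 hgm, hr, ?_, ?_⟩
    · intro T
      obtain ⟨x, hx⟩ := hsurj (V * T * U)
      obtain ⟨y, hy⟩ := hran 1 1 x
      refine ⟨y, ?_⟩
      change g y = T
      rw [hg, hy, mul_one, mul_one, map_mul, map_mul, hx, ← hVU]
      have e1 : U * (V * U * (V * T * U) * (V * U)) * V =
          (U * V) * (U * V) * T * (U * V) * (U * V) := by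
        simp only [Matrix.mul_assoc]
      rw [e1, hUV]
      simp only [Matrix.one_mul, Matrix.mul_one]
    · ext y
      change ρ (κ y) = 0 ↔ g y = 0
      constructor
      · intro h
        rw [hg, h, Matrix.mul_zero, Matrix.zero_mul]
      · intro h
        have e1 : ρ (κ y) = V * g y * U := by
          have e2 : κ y = j * κ y * j := by
            rw [hjl, hjr]
          conv_lhs => rw [e2]
          rw [map_mul, map_mul, ← hVU, hg]
          simp only [Matrix.mul_assoc]
        rw [e1, h, Matrix.mul_zero, Matrix.zero_mul]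
  · rintro K ⟨n, ρ, hn, hρ, rfl⟩ K' ⟨n', ρ', hn', hρ', rfl⟩ h
    have hy : ∀ y, ρ (κ y) = 0 ↔ ρ' (κ y) = 0 := by
      intro y
      have := Set.ext_iff.1 h y
      exact this
    ext x
    constructor
    · intro hx
      refine hker ρ' x fun a b y he => (hy y).1 ?_
      rw [he]
      have hx' : ρ x = 0 := hx
      simp only [map_mul, hx', mul_zero, zero_mul]
    · intro hx
      refine hker ρ x fun a b y he => (hy y).2 ?_
      rw [he]
      have hx' : ρ' x = 0 := hx
      simp only [map_mul, hx', mul_zero, zero_mul]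

end Pool.Agent.PFC.H91
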