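import Pool.Agent.PFC.StmtsB5d

/-!
# Squad PFC, row CMR: comparison of the local matrix algebras
-/

set_option autoImplicit false

open scoped BigOperators TensorProduct

noncomputable section

namespace Pool.Agent.PFC.B5c.H91

/-- row CMR -/
theorem cmr (qtr : QtrStmt) (qal : QalStmt) (qte : QteStmt) (qop : QopStmt) (qun : QunStmt)
    (qca : QcaStmt) (qis : QisStmt) (qmx : QmxStmt) : CmrStmt := by
  intro ℓ _ F V E _ _ _ _ _ X φ W S hV hW hX hXV hS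
  obtain ⟨hrefl, hsymm, htrans, hBQ, -, -, -, -, -, -, -, hone, -⟩ := qis F V
  obtain ⟨-, -, hgr⟩ := qop F V
  obtain ⟨-, -, hmx1⟩ := qmx F V
  have huni : ∀ (Z Y Y' : IA F V) (Q : Subgroup V), BQ Z Y Q → BQ Z Y' Q → Iso Y Y' := by
    rintro Z Y Y' Q ⟨β, s, h⟩ ⟨β', s', h'⟩
    obtain ⟨e, he, -⟩ := qun ℓ F V Z Y Y' Q β s β' s' hV h h'
    exact ⟨e, he⟩
  refine ⟨fun Q hQ R => ?_, ?_⟩
  · have hQR : ¬ Q ⊔ R ≤ W := fun h => hQ (le_sup_left.trans h)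
    have h1 : BQ ((S Q).tens (IA.gr F V)) ((S (Q ⊔ R)).tens (IA.gr F V)) R :=
      qtr ℓ F V X _ _ Q R hV hX (hS.bq Q hQ) (hS.bq (Q ⊔ R) hQR)
    obtain ⟨T, hT⟩ := qal ℓ F V (S Q) hV (hS.cp Q hQ) R
    have h2 : BQ ((S Q).tens (IA.gr F V)) (T.tens (IA.gr F V)) R := by
      obtain ⟨β, s, h⟩ := hT
      obtain ⟨β', s', h'⟩ := hgr R
      exact ⟨_, _, qte ℓ F V _ _ _ _ R β s β' s' hV h h'⟩
    have h3 : Iso T (S (Q ⊔ R)) :=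
      qca ℓ F V T (S (Q ⊔ R)) hV (hS.mx (Q ⊔ R) hQR) (huni _ _ _ R h2 h1)
    exact hBQ (S Q) (S Q) T (S (Q ⊔ R)) R (hrefl _) h3 hT
  · have h1 : Iso ((S ⊤).tens (IA.gr F V)) (IA.gr F V) := huni X _ _ ⊤ (hS.bq ⊤ hW) hXV
    exact qca ℓ F V (S ⊤) (IA.one F V) hV hmx1 (htrans _ _ _ h1 (hsymm _ _ (hone (IA.gr F V))))

end Pool.Agent.PFC.B5c.H91
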