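import Pool.Agent.PFC.StmtsB5a

/-!
# Squad PFC, row QPSa: the stabilisers for `A(Q)`
-/

set_option autoImplicit false

noncomputable section

namespace Pool.Agent.PFC.H91

open Pool.Agent.PFC.B5a

/-- row QPSa -/
theorem qpsa : QpsStmt := by
  intro hbki hqfc ℓ _ F V E A B _ _ _ _ _ _ _ _ _ φ W α Q q hctx hqa hQ hps
  obtain ⟨Ω, _, _, b, c, hfr, hst⟩ := hps
  obtain ⟨Ω', i1, i2, j, b', c', hfr', hj, hj2, hj3, -, -⟩ :=
    hqfc hbki ℓ F V A B α Q q Ω b c hctx.pg hqa hfr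
  refine ⟨Ω', i1, i2, b', c', hfr', fun ω' => ?_⟩
  obtain ⟨e, R, hR⟩ := hst (j ω')
  have hs : MulAction.stabilizer (V × V) ω' = MulAction.stabilizer (V × V) (j ω') := by
    ext w
    rw [MulAction.mem_stabilizer_iff, MulAction.mem_stabilizer_iff, ← hj3]
    exact ⟨fun h => by rw [h], fun h => hj h⟩
  obtain ⟨u, hu, hu1⟩ : ∃ u ∈ Q, u ∉ W := SetLike.not_le_iff_exists.1 hQ
  have h1 : ((u, u) : V × V) ∈ MulAction.stabilizer (V × V) (j ω') := by
    rw [MulAction.mem_stabilizer_iff]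
    exact (hj2 (j ω')).1 ⟨ω', rfl⟩ u hu
  rw [hR] at h1
  obtain ⟨r, -, hr2⟩ := h1
  have h2 : φ e r = u := congrArg Prod.fst hr2
  have h3 : r = u := congrArg Prod.snd hr2
  rw [h3] at h2
  have he : e = 1 := (hctx.free e u h2).resolve_right hu1
  refine ⟨R, ?_⟩
  rw [hs, hR, he, map_one]
  rfl

end Pool.Agent.PFC.H91
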