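import Pool.Agent.Helper91_PFC.Latt

/-!
# Squad PFC, row HGN: the rank of the intertwiners of lattices is the dimension of the intertwiners
of the generic fibres
-/

set_option autoImplicit false

open scoped BigOperators

noncomputable section

namespace Pool.Agent.PFC.B2.H91

open Pool.Agent.PFC.B1

/-- a common denominator -/
theorem den_fin {R L M' M ι : Type} [CommRing R] [IsDomain R] [Field L] [Algebra R L]
    [IsFractionRing R L] [AddCommGroup M'] [Module R M'] [AddCommGroup M] [Module L M]
    [Fintype ι] (i : M' →+ M) (sm : ∀ (r : R) x, i (r • x) = algebraMap R L r • i x)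
    (den : ∀ t : M, ∃ (r : R) (x : M'), algebraMap R L r ≠ 0 ∧ algebraMap R L r • t = i x)
    (t : ι → M) : ∃ (r : R) (x : ι → M'), algebraMap R L r ≠ 0 ∧
      ∀ k, algebraMap R L r • t k = i (x k) := by
  classical
  choose r x hr hx using fun k => den (t k)
  refine ⟨∏ k, r k, fun k => (∏ l ∈ Finset.univ.erase k, r l) • x k, ?_, fun k => ?_⟩
  · rw [map_prod]
    exact Finset.prod_ne_zero_iff.2 fun k _ => hr k
  · rw [sm, ← hx k, smul_smul, ← map_mul, Finset.prod_erase_mul _ _ (Finset.mem_univ k)]

/-- row HGN -/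
theorem hgn : HgnStmt := by
  intro F A' L T' N' T N _ _ _ _ _ _ _ _ _ _ _ _ _ _ _ _ _ _ τ' ν' τ ν gt gn
  classical
  obtain ⟨B, hB⟩ := basis_gen gt.i gt.inj gt.sm gt.den
    (Module.Free.chooseBasis (PowerSeries F) T')
  set b := Module.Free.chooseBasis (PowerSeries F) T' with hb
  -- the extension of a linear map of lattices
  let ext : (T' →ₗ[PowerSeries F] N') → (T →ₗ[L] N) := fun f =>
    B.constr L (fun k => gn.i (f (b k)))
  have hext : ∀ f x, ext f (gt.i x) = gn.i (f x) := by
    intro f x
    conv_lhs => rw [← b.sum_repr x]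
    conv_rhs => rw [← b.sum_repr x]
    rw [map_sum, map_sum, map_sum, map_sum]
    refine Finset.sum_congr rfl fun k _ => ?_
    rw [gt.sm, map_smul, map_smul, gn.sm, ← hB, Module.Basis.constr_basis]
  have huniq : ∀ (f g : T →ₗ[L] N), (∀ x, f (gt.i x) = g (gt.i x)) → f = g := by
    intro f g h
    apply B.ext
    intro k
    rw [hB]
    exact h _
  have hhom : ∀ f : T' →ₗ[PowerSeries F] N', IsHom τ' ν' f → IsHom τ ν (ext f) := by
    intro f hf a t
    obtain ⟨r, x, hr, hx⟩ := gt.den t
    have h1 : algebraMap (PowerSeries F) L r • ext f (τ.ρ a t) =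
        algebraMap (PowerSeries F) L r • ν.ρ a (ext f t) := by
      rw [← map_smul, ← map_smul, ← map_smul, ← map_smul, hx, ← gt.eqv, hext, hf, gn.eqv, hext]
    have h2 := congrArg (fun z => (algebraMap (PowerSeries F) L r)⁻¹ • z) h1
    simpa only [smul_smul, inv_mul_cancel₀ hr, one_smul] using h2
  let i : Hm τ' ν' →+ Hm τ ν :=
    { toFun := fun f => ⟨ext f.1, hhom f.1 f.2⟩
      map_zero' := by
        apply Subtype.ext
        apply huniq
        intro x
        show ext 0 (gt.i x) = (0 : T →ₗ[L] N) (gt.i x)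
        rw [hext, LinearMap.zero_apply, LinearMap.zero_apply, map_zero]
      map_add' := by
        intro f g
        apply Subtype.ext
        apply huniq
        intro x
        show ext (f.1 + g.1) (gt.i x) = ext f.1 (gt.i x) + ext g.1 (gt.i x)
        rw [hext, hext, hext, LinearMap.add_apply, map_add] }
  have hi : ∀ f x, (i f).1 (gt.i x) = gn.i (f.1 x) := fun f x => hext f.1 x
  refine finrank_gen (R := PowerSeries F) (L := L) i ?_ ?_ ?_
  · intro f g hfg
    apply Subtype.ext
    apply LinearMap.ext
    intro x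
    apply gn.inj
    rw [← hi, ← hi, hfg]
  · intro r f
    apply Subtype.ext
    apply huniq
    intro x
    show (i (r • f)).1 (gt.i x) = algebraMap (PowerSeries F) L r • (i f).1 (gt.i x)
    rw [hi, hi, ← gn.sm]
    rfl
  · intro f
    obtain ⟨r, y, hr, hy⟩ := den_fin gn.i gn.sm gn.den (fun k => f.1 (gt.i (b k)))
    let f' : T' →ₗ[PowerSeries F] N' := b.constr (PowerSeries F) y
    have hf' : ∀ x, gn.i (f' x) = algebraMap (PowerSeries F) L r • f.1 (gt.i x) := by
      intro x
      conv_lhs => rw [← b.sum_repr x]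
      conv_rhs => rw [← b.sum_repr x]
      rw [map_sum, map_sum, map_sum, map_sum, Finset.smul_sum]
      refine Finset.sum_congr rfl fun k _ => ?_
      rw [map_smul, gn.sm, Module.Basis.constr_basis, ← hy, gt.sm, map_smul, smul_comm]
    refine ⟨r, ⟨f', ?_⟩, hr, ?_⟩
    · intro a x
      apply gn.inj
      rw [hf', gn.eqv, hf', gt.eqv, map_smul, f.2]
    · apply Subtype.ext
      apply huniq
      intro x
      rw [hi, hf']
      rfl

end Pool.Agent.PFC.B2.H91
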