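import Pool.Agent.PFC.StmtsB2

/-!
# Squad PFC, row HPR: the special fibre of a Higman projective lattice
-/

set_option autoImplicit false

open scoped BigOperators

noncomputable section

namespace Pool.Agent.PFC.B2.H91

open Pool.Agent.PFC.B1

/-- a linear map of lattices induces a linear map of special fibres -/
theorem red {F M' M N' N : Type} [Field F] [AddCommGroup M'] [Module (PowerSeries F) M']
    [AddCommGroup M] [Module F M] [AddCommGroup N'] [Module (PowerSeries F) N']
    [AddCommGroup N] [Module F N] (p : M' →+ M) (q : N' →+ N) (sur : Function.Surjective p)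
    (smp : ∀ (r : PowerSeries F) x, p (r • x) = PowerSeries.constantCoeff r • p x)
    (smq : ∀ (r : PowerSeries F) x, q (r • x) = PowerSeries.constantCoeff r • q x)
    (ker : ∀ x, p x = 0 → ∃ y, x = (PowerSeries.X : PowerSeries F) • y)
    (a : M' →ₗ[PowerSeries F] N') : ∃ a0 : M →ₗ[F] N, ∀ x, a0 (p x) = q (a x) := by
  have hwd : ∀ x y, p x = p y → q (a x) = q (a y) := by
    intro x y h
    obtain ⟨z, hz⟩ := ker (x - y) (by rw [map_sub, h, sub_self])
    have h1 : x = y + (PowerSeries.X : PowerSeries F) • z := by rw [← hz]; abel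
    rw [h1, map_add, map_add, map_smul, smq]
    simp
  let g : M → M' := fun m => (sur m).choose
  have hg : ∀ m, p (g m) = m := fun m => (sur m).choose_spec
  refine ⟨{ toFun := fun m => q (a (g m)), map_add' := ?_, map_smul' := ?_ }, ?_⟩
  · intro m n
    have h1 : q (a (g (m + n))) = q (a (g m + g n)) := hwd _ _ (by
      rw [hg, map_add, hg, hg])
    rw [h1, map_add, map_add]
  · intro c m
    have h1 : q (a (g (c • m))) = q (a ((PowerSeries.C c : PowerSeries F) • g m)) :=
      hwd _ _ (by rw [hg, smp, hg]; simp)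
    show q (a (g (c • m))) = c • q (a (g m))
    rw [h1, map_smul, smq]
    simp
  · intro x
    exact hwd _ _ (hg (p x))

/-- row HPR -/
theorem hpr : HprStmt := by
  intro F A' A J T' T0 _ _ _ _ _ _ _ _ _ _ d fb d0 τ' τ0 sf hb hb' hHP
  obtain ⟨a, ha⟩ := hHP
  obtain ⟨a0, ha0⟩ := red sf.p sf.p sf.sur sf.sm sf.sm sf.ker a
  refine ⟨a0, ?_⟩
  apply LinearMap.ext
  intro t
  obtain ⟨x, rfl⟩ := sf.sur t
  have h1 : (d0.tr τ0 τ0 a0) (sf.p x) = sf.p ((d.tr τ' τ' a) x) := by
    unfold FS.tr
    rw [LinearMap.sum_apply, LinearMap.sum_apply, map_sum]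
    refine Finset.sum_congr rfl fun k _ => ?_
    simp only [LinearMap.comp_apply]
    rw [hb, hb', ← sf.eqv, ha0, ← sf.eqv]
  rw [h1, ha]
  rfl

end Pool.Agent.PFC.B2.H91
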