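import Pool.Agent.PFC.StmtsB2

/-!
# Squad PFC, block B2: ranks of lattices and of their generic and special fibres
-/

set_option autoImplicit false

open scoped BigOperators

noncomputable section

namespace Pool.Agent.PFC.B2.H91

open Pool.Agent.PFC.B1

/-- A basis of a lattice is a basis of its generic fibre. -/
theorem basis_gen {R L M' M κ : Type} [CommRing R] [IsDomain R] [Fintype κ]
    [Field L] [Algebra R L] [IsFractionRing R L] [AddCommGroup M'] [Module R M']
    [AddCommGroup M] [Module L M] (i : M' →+ M)
    (inj : Function.Injective i) (sm : ∀ (r : R) x, i (r • x) = algebraMap R L r • i x)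
    (den : ∀ t : M, ∃ (r : R) (x : M'), algebraMap R L r ≠ 0 ∧ algebraMap R L r • t = i x)
    (b : Module.Basis κ R M') : ∃ B : Module.Basis κ L M, ∀ k, B k = i (b k) := by
  classical
  have hli : LinearIndependent L (fun k => i (b k)) := by
    rw [Fintype.linearIndependent_iff]
    intro g hg k
    obtain ⟨r, hr⟩ := IsLocalization.exist_integer_multiples_of_finite (nonZeroDivisors R) g
    choose d hd using hr
    have h1 : i (∑ k, d k • b k) = 0 := by
      rw [map_sum]
      have : ∀ k, i (d k • b k) = algebraMap R L r • (g k • i (b k)) := by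
        intro k
        rw [sm, hd k, ← algebraMap_smul L (r : R) (g k), smul_assoc]
      rw [Finset.sum_congr rfl fun k _ => this k, ← Finset.smul_sum, hg, smul_zero]
    have h2 : ∑ k, d k • b k = 0 := inj (by rw [h1, map_zero])
    have h3 : d k = 0 := (Fintype.linearIndependent_iff.1 b.linearIndependent) d h2 k
    have h4 := hd k
    rw [h3, map_zero] at h4
    have h5 : algebraMap R L r ≠ 0 := by
      intro h
      exact nonZeroDivisors.coe_ne_zero r ((IsFractionRing.injective R L) (by rw [h, map_zero]))
    rw [Algebra.smul_def] at h4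
    exact (mul_eq_zero.1 h4.symm).resolve_left h5
  have hsp : ⊤ ≤ Submodule.span L (Set.range fun k => i (b k)) := by
    intro t _
    obtain ⟨r, x, hr, hx⟩ := den t
    have h1 : i x ∈ Submodule.span L (Set.range fun k => i (b k)) := by
      rw [← b.sum_repr x, map_sum]
      refine Submodule.sum_mem _ fun k _ => ?_
      rw [sm]
      exact Submodule.smul_mem _ _ (Submodule.subset_span ⟨k, rfl⟩)
    have h2 : t = (algebraMap R L r)⁻¹ • i x := by
      rw [← hx, smul_smul, inv_mul_cancel₀ hr, one_smul]
    rw [h2]
    exact Submodule.smul_mem _ _ h1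
  exact ⟨Module.Basis.mk hli hsp, fun k => by rw [Module.Basis.mk_apply]⟩

/-- The rank of a lattice is the dimension of its generic fibre. -/
theorem finrank_gen {R L M' M : Type} [CommRing R] [IsDomain R]
    [Field L] [Algebra R L] [IsFractionRing R L] [AddCommGroup M'] [Module R M']
    [Module.Finite R M'] [Module.Free R M'] [AddCommGroup M] [Module L M] (i : M' →+ M)
    (inj : Function.Injective i) (sm : ∀ (r : R) x, i (r • x) = algebraMap R L r • i x)
    (den : ∀ t : M, ∃ (r : R) (x : M'), algebraMap R L r ≠ 0 ∧ algebraMap R L r • t = i x) :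
    Module.finrank R M' = Module.finrank L M := by
  obtain ⟨B, -⟩ := basis_gen i inj sm den (Module.Free.chooseBasis R M')
  rw [Module.finrank_eq_card_basis (Module.Free.chooseBasis R M'), Module.finrank_eq_card_basis B]

/-- The rank of a lattice is the dimension of its special fibre. -/
theorem finrank_spe {F M' M : Type} [Field F] [AddCommGroup M'] [Module (PowerSeries F) M']
    [Module.Finite (PowerSeries F) M'] [Module.Free (PowerSeries F) M'] [AddCommGroup M]
    [Module F M] (p : M' →+ M) (sur : Function.Surjective p)
    (sm : ∀ (r : PowerSeries F) x, p (r • x) = PowerSeries.constantCoeff r • p x)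
    (ker : ∀ x, p x = 0 → ∃ y, x = (PowerSeries.X : PowerSeries F) • y) :
    Module.finrank (PowerSeries F) M' = Module.finrank F M := by
  classical
  let b := Module.Free.chooseBasis (PowerSeries F) M'
  have hli : LinearIndependent F (fun k => p (b k)) := by
    rw [Fintype.linearIndependent_iff]
    intro g hg k
    have h1 : p (∑ k, (PowerSeries.C (g k) : PowerSeries F) • b k) = 0 := by
      rw [map_sum]
      rw [Finset.sum_congr rfl fun k _ => sm _ _]
      simpa using hg
    obtain ⟨y, hy⟩ := ker _ h1
    have h2 : (b.repr (∑ k, (PowerSeries.C (g k) : PowerSeries F) • b k)) k =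
        (b.repr ((PowerSeries.X : PowerSeries F) • y)) k := by rw [hy]
    rw [b.repr_sum_self, map_smul, Finsupp.smul_apply, smul_eq_mul] at h2
    have h3 := congrArg PowerSeries.constantCoeff h2
    simpa using h3
  have hsp : ⊤ ≤ Submodule.span F (Set.range fun k => p (b k)) := by
    intro t _
    obtain ⟨x, rfl⟩ := sur t
    rw [← b.sum_repr x, map_sum]
    refine Submodule.sum_mem _ fun k _ => ?_
    rw [sm]
    exact Submodule.smul_mem _ _ (Submodule.subset_span ⟨k, rfl⟩)
  rw [Module.finrank_eq_card_basis b, Module.finrank_eq_card_basis (Module.Basis.mk hli hsp)]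

end Pool.Agent.PFC.B2.H91
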