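import Pool.Agent.PFC.StmtsB6
import Pool.Agent.Helper50_PP.Ffa

/-!
# Squad PFC, row PBF: the input of part (0) for blocks, from the rows of block B6
-/

set_option autoImplicit false

noncomputable section

namespace Pool.Agent.PFC.H91

open Pool.Agent.Helper51_AWC Pool.Agent.Helper79_WRA Pool.Agent.PP Pool.Agent.PP.KF
open Pool.Agent.PP.K9 Pool.Agent.PP.K9.H97 Pool.Agent.PP.H75 Pool.Agent.PP.T3 Pool.Agent.PP.T2
open Pool.Agent.PP.T8 (Fr rs pw)

attribute [local instance] Ideal.Quotient.field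

/-- row PBF -/
theorem pbf (egr : EgrStmt) (jex : JexStmt) (jun : JunStmt) (ffa : FfaStmt) (fps : FpsStmt)
    (jlq : JlqStmt) (lcp : LcpStmt) (unt : UntStmt) (lse : LseStmt) : PbfStmt := by
  intro ℓ hℓ M iM hM G iG iFG e V γ hL hV hfr hcy
  obtain ⟨W, E, iW, iFW, iE, iFE, ι, φ, e0, hι, hr, hctx, hcard, hT1, hT2⟩ :=
    egr ℓ M hM G e V γ hL hV hfr hcy
  obtain ⟨j, hj⟩ := jex ℓ M hM G e V γ hL
  have hg : GoodF ℓ (FF M) := H50.fld ℓ hℓ.out M hM
  haveI : CharP (FF M) ℓ := hg.char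
  have hmem : ∀ w : W, ι w ∈ V := fun w => by rw [← hr]; exact ⟨w, rfl⟩
  have hv : ∀ w x, j (ι w * x * (ι w)⁻¹) = j x := fun w x => hj.iv (ι w) (hmem w) x
  obtain ⟨hfin, hfrm, hloc, htop⟩ := ffa ℓ M hM G e V γ hL j hj W ι hι hr hj.id hv
  refine ⟨W, E, Crn hj.id, iW, iFW, iE, iFE, inferInstance, inferInstance, φ, e0,
    jal hj.id ι hv, hctx, ?_, hcard, ?_⟩
  · refine ⟨hfin, hfrm, hloc, fps ℓ M hM G e V γ hL j hj W E ι hι hr φ hT1 hj.id hv, htop, ?_, ?_⟩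
    · intro Q hQ
      have hne : Q ≠ ⊥ := fun h => hQ h.le
      have h1 : Q.map ι ≤ V := by
        rw [← hr]
        rintro _ ⟨w, -, rfl⟩
        exact ⟨w, rfl⟩
      have h2 : Q.map ι ≠ ⊥ := by
        intro h
        apply hne
        rw [Subgroup.map_eq_bot_iff_of_injective Q hι] at h
        exact h
      obtain ⟨n, π, hπ⟩ := jlq ℓ M hM G e V γ hL hfr j hj (Q.map ι) h1 h2
      obtain ⟨π', hπ'⟩ := lcp ℓ (FF M) G W ι hι hctx.pg j hj.id hv Q n π hπ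
      exact ⟨n, π', hπ'⟩
    · intro x
      obtain ⟨t, ht, htw⟩ := hT2 x
      exact unt ℓ M hM G e V γ hL j hj W ι hι hr hj.id hv t ht (φ x) htw
  · exact lse ℓ (FF M) hg G e j hL.blk.1 (jun ℓ M hM G e V γ hL j hj).2.1 hj.id

end Pool.Agent.PFC.H91
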