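import Pool.Agent.Helper91_PFC.Latt

/-!
# Squad PFC, row RKI: the rank of an idempotent is the same on both fibres of a lattice
-/

set_option autoImplicit false

open scoped BigOperators

noncomputable section

namespace Pool.Agent.PFC.B2.H91

open Pool.Agent.PFC.B1

/-- row RKI -/
theorem rki : RkiStmt := by
  intro F A' A L T' T T0 _ _ _ _ _ _ _ _ _ _ _ _ _ _ _ _ fb τ' τ τ0 gt sf e he
  have h0 : ∀ y, τ'.ρ e (τ'.ρ e y) = τ'.ρ e y := fun y => by
    rw [← Module.End.mul_apply, ← map_mul, he]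
  let i : LinearMap.range (τ'.ρ e) →+ LinearMap.range (τ.ρ e) :=
    { toFun := fun x => ⟨gt.i x.1, by
        obtain ⟨y, hy⟩ := x.2
        exact ⟨gt.i y, by rw [← gt.eqv, hy]⟩⟩
      map_zero' := Subtype.ext (map_zero gt.i)
      map_add' := fun x y => Subtype.ext (map_add gt.i _ _) }
  let p : LinearMap.range (τ'.ρ e) →+ LinearMap.range (τ0.ρ (fb.q e)) :=
    { toFun := fun x => ⟨sf.p x.1, by
        obtain ⟨y, hy⟩ := x.2
        exact ⟨sf.p y, by rw [← sf.eqv, hy]⟩⟩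
      map_zero' := Subtype.ext (map_zero sf.p)
      map_add' := fun x y => Subtype.ext (map_add sf.p _ _) }
  have h1 : Module.finrank (PowerSeries F) (LinearMap.range (τ'.ρ e)) =
      Module.finrank L (LinearMap.range (τ.ρ e)) := by
    refine finrank_gen i ?_ ?_ ?_
    · intro x y h
      exact Subtype.ext (gt.inj (congrArg Subtype.val h))
    · intro r x
      exact Subtype.ext (gt.sm r x.1)
    · rintro ⟨_, t, rfl⟩
      obtain ⟨r, x, hr, hx⟩ := gt.den t
      refine ⟨r, ⟨τ'.ρ e x, ⟨x, rfl⟩⟩, hr, Subtype.ext ?_⟩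
      show algebraMap (PowerSeries F) L r • τ.ρ e t = gt.i (τ'.ρ e x)
      rw [← map_smul, hx, ← gt.eqv]
  have h2 : Module.finrank (PowerSeries F) (LinearMap.range (τ'.ρ e)) =
      Module.finrank F (LinearMap.range (τ0.ρ (fb.q e))) := by
    refine finrank_spe p ?_ ?_ ?_
    · rintro ⟨_, t, rfl⟩
      obtain ⟨x, rfl⟩ := sf.sur t
      exact ⟨⟨τ'.ρ e x, ⟨x, rfl⟩⟩, Subtype.ext (sf.eqv e x)⟩
    · intro r x
      exact Subtype.ext (sf.sm r x.1)
    · intro x hx
      obtain ⟨y, hy⟩ := sf.ker x.1 (congrArg Subtype.val hx)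
      refine ⟨⟨τ'.ρ e y, ⟨y, rfl⟩⟩, Subtype.ext ?_⟩
      obtain ⟨z, hz⟩ := x.2
      show x.1 = (PowerSeries.X : PowerSeries F) • τ'.ρ e y
      rw [← map_smul, ← hy, ← hz, h0]
  unfold rk
  rw [← h1, h2]

end Pool.Agent.PFC.B2.H91
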